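import Mathlib
import Pool.Agent.H32.CI.Defs
import Pool.Agent.H32.CI.Explicit

/-!
Coset identities with few occurrences in arbitrary groups (MP_551747_al, Q1).
-/

set_option autoImplicit false

namespace Pool.Agent.Results.MP_551747_al.FewGeneral

open Pool.Agent.H32.CI

/-- Let `w` be a word in the class `Tame` (without units). Then
* some `v ≠ 1` is an identity of every normal subgroup `H` of every group `G` that satisfies the
  coset identity `w` on some cosets of `H`;
* for every `d ≠ 0`, some `v ≠ 1` is an identity of every group `G` that satisfies the coset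
  identity `w` on some cosets of a subgroup of index `d`. -/
theorem result :
    ∀ (n : ℕ) (w : FreeGroup (Fin n)), Tame (fun _ => False) n w →
      (∃ (m : ℕ) (v : FreeGroup (Fin m)), v ≠ 1 ∧
        ∀ (G : Type) [Group G] (H : Subgroup G), H.Normal →
          ∀ g : Fin n → G, CosetId w G H g →
            ∀ x : Fin m → G, (∀ i, x i ∈ H) → FreeGroup.lift x v = 1) ∧
      ∀ d : ℕ, d ≠ 0 → ∃ (m : ℕ) (v : FreeGroup (Fin m)), v ≠ 1 ∧
        ∀ (G : Type) [Group G] (H : Subgroup G), H.index = d →
          ∀ g : Fin n → G, CosetId w G H g → ∀ x : Fin m → G, FreeGroup.lift x v = 1 :=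
  fun _ w hw => law_general w hw

end Pool.Agent.Results.MP_551747_al.FewGeneral
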