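import Mathlib
import Pool.Agent.H32.CI.Defs
import Pool.Agent.H32.CI.Explicit

/-!
Coset identities with few occurrences in pro-`p` groups (MP_551747_al, Q1).
-/

set_option autoImplicit false

namespace Pool.Agent.Results.MP_551747_al.FewProP

open Pool.Agent.H32.CI

/-- Let `p` be a prime and let `w` be a word such that `w` lies in the class `Tame` in which the
exponent sums prime to `p` are units, or `w ≠ 1` and every variable occurs at most `3` times
(`p = 2`), `4` times (`p = 3, 5`) or `5` times (`p ≥ 7`) in `w`. Then
* some `v ≠ 1` is an identity of every closed normal subgroup `H` of every pro-`p` group `G` that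
  satisfies the coset identity `w` on some cosets of `H`;
* for every `d`, some `v ≠ 1` is an identity of every pro-`p` group `G` that satisfies the coset
  identity `w` on some cosets of an open subgroup of index `d`. -/
theorem result :
    ∀ (p : ℕ), p.Prime → ∀ (n : ℕ) (w : FreeGroup (Fin n)),
      (Tame (fun s => ¬ ((p : ℤ) ∣ s)) n w ∨
        (w ≠ 1 ∧ ∀ i, w.toWord.countP (fun l => l.1 = i) ≤
          if p = 2 then 3 else if p < 7 then 4 else 5)) →
      (∃ (m : ℕ) (v : FreeGroup (Fin m)), v ≠ 1 ∧
        ∀ (G : Type) [Group G] [TopologicalSpace G] [IsTopologicalGroup G] [CompactSpace G]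
          [T2Space G] [TotallyDisconnectedSpace G],
          (∀ N : Subgroup G, N.Normal → IsOpen (N : Set G) → ∃ k : ℕ, N.index = p ^ k) →
          ∀ H : Subgroup G, H.Normal → IsClosed (H : Set G) →
          ∀ g : Fin n → G, CosetId w G H g →
            ∀ x : Fin m → G, (∀ i, x i ∈ H) → FreeGroup.lift x v = 1) ∧
      ∀ d : ℕ, ∃ (m : ℕ) (v : FreeGroup (Fin m)), v ≠ 1 ∧
        ∀ (G : Type) [Group G] [TopologicalSpace G] [IsTopologicalGroup G] [CompactSpace G]
          [T2Space G] [TotallyDisconnectedSpace G],
          (∀ N : Subgroup G, N.Normal → IsOpen (N : Set G) → ∃ k : ℕ, N.index = p ^ k) →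
          ∀ H : Subgroup G, IsOpen (H : Set G) → H.index = d →
          ∀ g : Fin n → G, CosetId w G H g →
            ∀ x : Fin m → G, FreeGroup.lift x v = 1 := by
  intro p hp n w hw
  apply law_pro p hp w
  rcases hw with hw | ⟨h1, h2⟩
  · exact hw
  · exact tame_of_occ hp w h1 h2

end Pool.Agent.Results.MP_551747_al.FewProP
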