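import Mathlib
import Pool.Agent.H32.CI.Defs
import Pool.Agent.H32.CI.Engel3

/-!
Coset identities in which every variable occurs at most three times, or some variable occurs at
most four times, unequally often with the exponents `1` and `-1` and not four times with the same
exponent (MP_551747_al, Q1).
-/

set_option autoImplicit false

namespace Pool.Agent.Results.MP_551747_al.ThreeEngel

open Pool.Agent.H32.CI

/-- Let `w` be a word such that `w ≠ 1` and every variable occurs at most three times in `w`, or
some variable occurs at most four times in `w`, not four times with the same exponent, and unequally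
often with the exponents `1` and `-1`. If the group `G` satisfies the coset identity `w` on cosets
of a normal subgroup `H`, then in `H` every element commutes with all its conjugates. -/
theorem result :
    ∀ (n : ℕ) (w : FreeGroup (Fin n)),
      ((w ≠ 1 ∧ ∀ i, w.toWord.countP (fun l => l.1 = i) ≤ 3) ∨
        ∃ i, w.toWord.countP (fun l => l.1 = i) ≤ 4 ∧
          (∀ b, w.toWord.count (i, b) ≤ 3) ∧
          w.toWord.count (i, true) ≠ w.toWord.count (i, false)) →
      ∀ (G : Type) [Group G] (H : Subgroup G), H.Normal → ∀ g : Fin n → G, CosetId w G H g →
        ∀ x ∈ H, ∀ y ∈ H, x * (y⁻¹ * x * y) = (y⁻¹ * x * y) * x := by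
  intro n w hw G _ H hH g hid x hx y hy
  by_cases hs : ∃ i, w.toWord.countP (fun l => l.1 = i) ≤ 4 ∧
      (∀ b, w.toWord.count (i, b) ≤ 3) ∧
      w.toWord.count (i, true) ≠ w.toWord.count (i, false)
  · obtain ⟨i, h4, h3, hne⟩ := hs
    exact engel4 i h4 h3 hne G H g hid x y hx hy
  · rcases hw with ⟨hw, h3⟩ | h
    · have heq : ∀ i, w.toWord.count (i, true) = w.toWord.count (i, false) := by
        intro i
        by_contra hne
        refine hs ⟨i, (h3 i).trans (by norm_num), fun b => ?_, hne⟩
        have h5 := h3 i
        rw [countP_fst] at h5
        cases b <;> omega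
      have hab := comm_of_pairs hw h3 heq G H g hid
      have e1 : y⁻¹ * x * y = x := by
        rw [mul_assoc, hab x y hx hy, inv_mul_cancel_left]
      rw [e1]
    · exact absurd h hs

end Pool.Agent.Results.MP_551747_al.ThreeEngel
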